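import Mathlib
import Pool.Agent.Helper40.Lin.Defs
import Pool.Agent.Helper40.Conv.Main
import Pool.Agent.Helper78.Lin.MEAS
import Pool.Agent.Helper72.Lin.HIL

/-!
The GNS picture of a twisted reduced group C*-algebra: module ALG of the project on linear groups.
-/

open MeasureTheory Filter Topology
open scoped InnerProductSpace ComplexConjugate

set_option linter.unusedSectionVars false

namespace Pool.Agent.Helper85.Lin

open Pool.Agent.Helper40.Lin Pool.Agent.Helper40.Mob
open Pool.Agent.Helper40.Wiener Pool.Agent.Helper40.QFree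
open Pool.Agent.Helper40.Free Pool.Agent.Helper40.Conv

universe u v w

/-- the GNS picture of a twisted reduced group C*-algebra -/
theorem ALG {A : Type u} [CStarAlgebra A] {G : Type v} [Group G]
    (U : G → unitary A) (hU : ∀ g h, ∃ c : ℂ, (U g : A) * (U h : A) = c • (U (g * h) : A))
    (τ : A →L[ℂ] ℂ) (hτ : IsState τ) (hτU : ∀ g, g ≠ 1 → τ (U g : A) = 0)
    (hfaith : ∀ a, (∀ x y, τ (x * a * y) = 0) → a = 0)
    (hspan : ∀ a : A, a ∈ closure ((Submodule.span ℂ (Set.range fun g => (U g : A)) :
      Submodule ℂ A) : Set A))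
    {X : Type w} [TopologicalSpace X] [CompactSpace X] [T2Space X] [MeasurableSpace X]
    [BorelSpace X] (t s : X ≃ₜ X)
    (hsing : ∀ ν ρ : Measure X, IsFiniteMeasure ν → IsFiniteMeasure ρ → Measure.map t ν = ν →
      Measure.map s ρ = ρ → ν ⟂ₘ ρ) (ε : ℝ) (hε : 0 < ε) :
    ∃ N₀ : ℕ, ∀ N ≥ N₀, ∀ (x : ℕ → G) (κin κout : G → X),
      (∀ n γ, κout (x n * γ) = t^[n] (s^[n] (κin γ))) → ∀ c : ℕ → ℂ, (∀ n, ‖c n‖ ≤ 1) →
      ‖∑ n ∈ Finset.range N, c n • (U (x n) : A)‖ ≤ ε * N := by
  obtain ⟨N₀, hN₀⟩ := Pool.Agent.Helper78.Lin.MEAS t s hsing ((ε / 2) ^ 2) (by positivity)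
  refine ⟨N₀, fun N hN x κin κout hκ c hc => ?_⟩
  have hnt : Nontrivial A := by
    by_contra h
    rw [not_nontrivial_iff_subsingleton] at h
    have h1 : τ = 0 := by
      ext x
      rw [Subsingleton.elim x 0]
      simp
    have := hτ.2
    rw [h1, norm_zero] at this
    exact zero_ne_one this
  obtain ⟨H, _, _, _, π, ζ, hζ, hcyc⟩ := exists_gns_cyc τ hτ
  have hπinj : Function.Injective π := by
    rw [injective_iff_map_eq_zero]
    intro a ha
    apply hfaith
    intro x y
    rw [hζ, map_mul, map_mul, ha, mul_zero, zero_mul, zero_apply, inner_zero_right]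
  have hπnorm : ∀ a, ‖π a‖ = ‖a‖ := fun a => NonUnitalStarAlgHom.norm_map π hπinj a
  let e : G → H := fun h => π (U h : A) ζ
  have hone : τ 1 = 1 := state_one τ hτ
  have he : Orthonormal ℂ e := by
    classical
    rw [orthonormal_iff_ite]
    intro g h
    have h1 : inner ℂ (e g) (e h) = τ (star (U g : A) * (U h : A)) := by
      rw [hζ, map_mul, map_star, mul_apply_eq_comp, inner_star_right]
    rw [h1]
    by_cases hgh : g = h
    · subst hgh
      rw [if_pos rfl, (Unitary.mem_iff.1 (U g).2).1, hone]
    · rw [if_neg hgh]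
      obtain ⟨c, hc⟩ := u_star U hU g
      obtain ⟨d, hd⟩ := hU g⁻¹ h
      rw [hc, smul_mul_assoc, hd, map_smul, map_smul, hτU _ (by
        intro h2
        exact hgh (inv_mul_eq_one.1 h2)), smul_zero, smul_zero]
  have hd : Dense ((Submodule.span ℂ (Set.range e) : Submodule ℂ H) : Set H) := by
    let L : A →L[ℂ] H :=
      { toFun := fun a => π a ζ
        map_add' := fun a b => by rw [map_add, add_apply]
        map_smul' := fun c a => by rw [map_smul, smul_apply]; rfl
        cont := by
          have h1 : Continuous fun a => π a := by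
            apply (LinearMap.mkContinuous (π : A →ₗ[ℂ] (H →L[ℂ] H)) 1 (fun a => by
              rw [one_mul]; exact (hπnorm a).le)).continuous
          exact h1.clm_apply continuous_const }
    have h1 : ∀ a, L a ∈ closure ((Submodule.span ℂ (Set.range e) : Submodule ℂ H) : Set H) := by
      intro a
      have h2 := image_closure_subset_closure_image L.continuous (Set.mem_image_of_mem L (hspan a))
      refine closure_mono ?_ h2
      rintro _ ⟨b, hb, rfl⟩
      refine Submodule.span_induction (p := fun b _ => L b ∈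
        ((Submodule.span ℂ (Set.range e) : Submodule ℂ H) : Set H)) ?_ ?_ ?_ ?_ hb
      · rintro _ ⟨g, rfl⟩
        exact Submodule.subset_span ⟨g, rfl⟩
      · simp
      · intro a b _ _ ha hb
        rw [map_add]
        exact Submodule.add_mem _ ha hb
      · intro c a _ ha
        rw [map_smul]
        exact Submodule.smul_mem _ c ha
    intro v
    have h3 : closure (Set.range fun a => π a ζ) ⊆
        closure ((Submodule.span ℂ (Set.range e) : Submodule ℂ H) : Set H) :=
      closure_minimal (by rintro _ ⟨a, rfl⟩; exact h1 a) isClosed_closure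
    exact h3 (hcyc v)
  have hT := Pool.Agent.Helper72.Lin.HIL he hd (fun n => π (U (x n) : A)) x (fun n v => by
      have h1 : star (π (U (x n) : A)) * π (U (x n) : A) = 1 := by
        rw [← map_star, ← map_mul, (Unitary.mem_iff.1 (U (x n)).2).1, map_one]
      have h2 : inner ℂ (π (U (x n) : A) v) (π (U (x n) : A) v) = inner ℂ v v := by
        rw [← inner_star_right, ← mul_apply_eq_comp, h1, one_apply_eq_self]
      have h3 : ‖π (U (x n) : A) v‖ ^ 2 = ‖v‖ ^ 2 := by
        rw [inner_self_eq_norm_sq_to_K, inner_self_eq_norm_sq_to_K] at h2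
        exact_mod_cast h2
      exact (sq_eq_sq₀ (norm_nonneg _) (norm_nonneg _)).1 h3)
    (fun n h => by
      obtain ⟨c, hc⟩ := hU (x n) h
      refine ⟨c, ?_⟩
      change π (U (x n) : A) (π (U h : A) ζ) = c • π (U (x n * h) : A) ζ
      rw [← mul_apply_eq_comp, ← map_mul, hc, map_smul, smul_apply])
    t.toEquiv s.toEquiv κin κout hκ ((ε / 2) ^ 2) N (hN₀ N hN) c hc
  rw [← hπnorm, map_sum]
  refine le_trans (le_of_eq ?_) (hT.trans (le_of_eq ?_))
  · congr 1
    apply Finset.sum_congr rfl
    intro n _
    rw [map_smul]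
  · rw [Real.sqrt_sq (by positivity)]
    ring

end Pool.Agent.Helper85.Lin
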